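import Pool.Agent.N818.SN.StrC
import Pool.Agent.N818.SN.Stm4

/-!
# SN: the 2-primary part of `Ш(WE n)`
-/

set_option autoImplicit false

open scoped Classical

namespace Pool.Agent.N721.SN

open Finset WeierstrassCurve
open Pool.Agent.TH841.SH.D
open Pool.Agent.Z702 (LocI WZ coc T0)
open Pool.Agent.N877.P24 (Qc)
open Pool.Agent.N818.SL (coc_add cls cls_eq cls_add cls_zero_iff prim lcb cob_of_eq coc_cob
  ndvd_prod sqf_prod)
open Pool.Agent.N818.SN

/-- the prime factors of `d`, if all but at most `r` divide `n` -/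
lemma natAbs_of' {n : ℕ} {d : ℤ} (hd : Squarefree d) {r : ℕ} (hr : r.Prime)
    (h : ∀ p : ℕ, p.Prime → p ≠ r → (p : ℤ) ∣ d → p ∈ n.primeFactors) (hrn : r ∉ n.primeFactors) :
    d.natAbs = (if (r : ℤ) ∣ d then r else 1) *
      ∏ q ∈ n.primeFactors.filter (fun q : ℕ => (q : ℤ) ∣ d), q := by
  have hd0 : d.natAbs ≠ 0 := Int.natAbs_ne_zero.2 hd.ne_zero
  have hsq := Int.squarefree_natAbs.2 hd
  rw [← Nat.prod_primeFactors_of_squarefree hsq]
  have h3 : r ∉ n.primeFactors.filter (fun q : ℕ => (q : ℤ) ∣ d) := by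
    intro h4
    exact hrn (mem_filter.1 h4).1
  have key : ∀ p : ℕ, p ∈ d.natAbs.primeFactors ↔ p.Prime ∧ (p : ℤ) ∣ d := by
    intro p
    rw [Nat.mem_primeFactors, Int.natCast_dvd]
    exact ⟨fun h => ⟨h.1, h.2.1⟩, fun h => ⟨h.1, h.2, hd0⟩⟩
  by_cases h5 : (r : ℤ) ∣ d
  · rw [if_pos h5, ← prod_insert (f := fun q => q) h3]
    refine prod_congr (Finset.ext fun p => ?_) fun _ _ => rfl
    rw [key, mem_insert, mem_filter]
    constructor
    · rintro ⟨hp, hpd⟩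
      by_cases hp3 : p = r
      · exact Or.inl hp3
      · exact Or.inr ⟨h p hp hp3 hpd, hpd⟩
    · rintro (rfl | ⟨h6, h7⟩)
      · exact ⟨hr, h5⟩
      · exact ⟨Nat.prime_of_mem_primeFactors h6, h7⟩
  · rw [if_neg h5, one_mul]
    refine prod_congr (Finset.ext fun p => ?_) fun _ _ => rfl
    rw [key, mem_filter]
    constructor
    · rintro ⟨hp, hpd⟩
      refine ⟨h p hp ?_ hpd, hpd⟩
      rintro rfl
      exact h5 hpd
    · rintro ⟨h6, h7⟩
      exact ⟨Nat.prime_of_mem_primeFactors h6, h7⟩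

/-- the classes of the rational points, `b` a square -/
theorem cob_tor' (hTR : S_TR) {a b r d : ℤ} (hbr : b = r ^ 2) (hr : r ≠ 0) (hb : b ≠ 0)
    (hab : a ^ 2 - 4 * b ≠ 0) (hd : d ≠ 0)
    (hk : ∃ k : ℕ, Odd k ∧ Nat.card (WZ (-2 * a) (a ^ 2 - 4 * b)).toAffine.Point = 4 * k)
    (h : IsCob (WZ a b) (coc hb d)) :
    IsSquare (d : ℚ) ∨ IsSquare ((d : ℚ) * ((a : ℚ) ^ 2 - 4 * (r : ℚ) ^ 2)) ∨
    IsSquare ((d : ℚ) * ((a : ℚ) + 2 * r)) ∨ IsSquare ((d : ℚ) * ((a : ℚ) - 2 * r)) := by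
  subst hbr
  exact cob_tor hTR hr hb hab hd hk h

section

variable {n : ℕ} (hn : Fm n)

include hn

lemma nnE : 81 * (n : ℤ) ^ 2 ≠ 0 := mul_ne_zero (by norm_num) (nn_ne hn)

lemma habE : (-14 * (n : ℤ)) ^ 2 - 4 * (81 * (n : ℤ) ^ 2) ≠ 0 := by
  have e : (-14 * (n : ℤ)) ^ 2 - 4 * (81 * (n : ℤ) ^ 2) = -128 * (n : ℤ) ^ 2 := by ring
  rw [e]
  exact mul_ne_zero (by norm_num) (nn_ne hn)

omit hn in
lemma zm2 {p : ℕ} [hp : Fact p.Prime] (h2 : p ≠ 2) : (-2 : ZMod p) ≠ 0 := by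
  intro h
  have h5 : ((2 : ℕ) : ZMod p) = 0 := by
    have : (2 : ZMod p) = 0 := by linear_combination -h
    exact_mod_cast this
  rw [ZMod.natCast_eq_zero_iff] at h5
  exact h2 ((Nat.prime_dvd_prime_iff_eq hp.out Nat.prime_two).1 h5)

omit hn in
lemma sq_e {e : ℤ} (he : e = 1 ∨ e = -1) : e * e = 1 := by
  rcases he with h | h <;> rw [h] <;> norm_num

lemma edC_sqf {e : ℤ} (he : e = 1 ∨ e = -1) {J : Finset ℕ} (hJ : J ⊆ n.primeFactors) :
    Squarefree (e * dC J) := by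
  rcases he with h | h
  · rw [h, one_mul]
    exact dC_sqf hn hJ
  · rw [h, neg_one_mul, ← Int.squarefree_natAbs, Int.natAbs_neg, Int.squarefree_natAbs]
    exact dC_sqf hn hJ

lemma dvd_edC {e : ℤ} (he : e = 1 ∨ e = -1) {J : Finset ℕ} (hJ : J ⊆ n.primeFactors) {p : ℕ}
    (hp : p.Prime) : (p : ℤ) ∣ e * dC J ↔ p ∈ J := by
  rw [← dvd_dC hn hJ hp]
  rcases he with h | h
  · rw [h, one_mul]
  · rw [h, neg_one_mul, dvd_neg]

/-- sufficiency -/
theorem sufE (hL : S_LOCE) {e : ℤ} (he : e = 1 ∨ e = -1) {J : Finset ℕ}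
    (hJ : CG (-2) e n.primeFactors J) (p : ℕ) [hfp : Fact p.Prime] :
    LocI ℚ_[p] (-14 * n) (81 * (n : ℤ) ^ 2) (e * dC J) := by
  obtain ⟨-, hSP, hT3, hT2⟩ := hL
  have hp : p.Prime := hfp.out
  have hsf := edC_sqf hn he hJ.1
  have h24 := hn.2
  by_cases hp2 : p = 2
  · subst hp2
    exact (hT2 n _ hsf).1 (by omega)
  by_cases hp3 : p = 3
  · subst hp3
    refine (hT3 n _ (by omega) hsf).2 ?_
    have h1 : ¬ ((3 : ℕ) : ℤ) ∣ e * dC J := fun h =>
      three_not hn (hJ.1 ((dvd_edC hn he hJ.1 Nat.prime_three).1 h))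
    exact_mod_cast h1
  obtain ⟨s1, s2, s3, s4⟩ := hSP p n (e * dC J) hp2 hp3 (n_sqf hn) hsf
  by_cases hpD : p ∈ n.primeFactors
  swap
  · exact s1 (fun h => hpD ((mem_pf hn hp).1 h)) fun h => hpD (hJ.1 ((dvd_edC hn he hJ.1 hp).1 h))
  have e2 : (((-2 : ℤ)) : ZMod p) = -2 := by push_cast; rfl
  by_cases hp1 : IsSquare (((-2 : ℤ)) : ZMod p)
  · by_cases hpJ : p ∈ J
    · exact s4 _ (e * ∏ q ∈ J.erase p, (q : ℤ)) (n_erase hn hpD) (by
        rw [dC_erase hpJ]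
        ring) ((hJ.2 p hpD hp1).2 hpJ)
    · exact s3 (fun h => hpJ ((dvd_edC hn he hJ.1 hp).1 h)) ((hJ.2 p hpD hp1).1 hpJ)
  · exact s2 ((mem_pf hn hp).2 hpD) hp1

/-- necessity -/
theorem necE (hL : S_LOCE) {d : ℤ} (hd : Squarefree d)
    (hl : ∀ (p : ℕ) [Fact p.Prime], LK ℚ_[p] (-14 * n) (81 * (n : ℤ) ^ 2) d) :
    ∃ e : ℤ, (e = 1 ∨ e = -1) ∧ ∃ J, CG (-2) e n.primeFactors J ∧
      ∃ m : ℤ, m ≠ 0 ∧ ∃ c : ℤ, (c = 1 ∨ c = -2) ∧ d * (e * dC J) = c * m ^ 2 := by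
  obtain ⟨hNP, -, hT3, -⟩ := hL
  have h24 := hn.2
  have : Fact (Nat.Prime 3) := ⟨Nat.prime_three⟩
  have hd3 : ¬ (3 : ℤ) ∣ d := (hT3 n d (by omega) hd).1 (hl 3)
  have hNP' := fun (p : ℕ) (hp : p.Prime) (hp2 : p ≠ 2) (hp3 : p ≠ 3) =>
    @hNP p ⟨hp⟩ n d hp2 hp3 (n_sqf hn) hd (@hl p ⟨hp⟩)
  have hfac : ∀ p : ℕ, p.Prime → p ≠ 2 → (p : ℤ) ∣ d → p ∈ n.primeFactors := by
    intro p hp hp2 hpd
    by_contra hpD
    have hp3 : p ≠ 3 := by
      rintro rfl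
      exact hd3 (by exact_mod_cast hpd)
    exact (hNP' p hp hp2 hp3).1 (fun h => hpD ((mem_pf hn hp).1 h)) hpd
  obtain ⟨J, hJdef⟩ : ∃ J, J = n.primeFactors.filter (fun q : ℕ => (q : ℤ) ∣ d) := ⟨_, rfl⟩
  have hJs : J ⊆ n.primeFactors := by
    rw [hJdef]
    exact filter_subset _ _
  have hab := natAbs_of' hd Nat.prime_two hfac (two_not hn)
  rw [← hJdef] at hab
  obtain ⟨c, hc, e, he, hdd⟩ : ∃ c : ℤ, (c = 1 ∨ c = -2) ∧ ∃ e : ℤ, (e = 1 ∨ e = -1) ∧
      d = c * (e * dC J) := by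
    have h5 := dC_cast J
    rcases Int.natAbs_eq d with h7 | h7
    · by_cases h6 : ((2 : ℕ) : ℤ) ∣ d
      · rw [if_pos h6] at hab
        refine ⟨-2, Or.inr rfl, -1, Or.inr rfl, ?_⟩
        rw [h7, hab, h5]
        push_cast
        ring
      · rw [if_neg h6, one_mul] at hab
        refine ⟨1, Or.inl rfl, 1, Or.inl rfl, ?_⟩
        rw [h7, hab, h5]
        ring
    · by_cases h6 : ((2 : ℕ) : ℤ) ∣ d
      · rw [if_pos h6] at hab
        refine ⟨-2, Or.inr rfl, 1, Or.inl rfl, ?_⟩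
        rw [h7, hab, h5]
        push_cast
        ring
      · rw [if_neg h6, one_mul] at hab
        refine ⟨1, Or.inl rfl, -1, Or.inr rfl, ?_⟩
        rw [h7, hab, h5]
        ring
  have hmem : ∀ p ∈ n.primeFactors, (p ∈ J ↔ (p : ℤ) ∣ d) := by
    intro p hpD
    rw [hJdef, mem_filter]
    exact ⟨fun h => h.2, fun h => ⟨hpD, h⟩⟩
  have hJ0 := (dC_sqf hn hJs).ne_zero
  refine ⟨e, he, J, ⟨hJs, fun p hpD hp1 => ?_⟩, dC J, hJ0, c, hc, ?_⟩
  swap
  · have h8 := sq_e he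
    rw [hdd]
    linear_combination c * (dC J) ^ 2 * h8
  obtain ⟨hp, hpd, hp2, hp3⟩ := pf_ne hn hpD
  have : Fact p.Prime := ⟨hp⟩
  obtain ⟨h2, h3⟩ := (hNP' p hp hp2 hp3).2 ((mem_pf hn hp).2 hpD) hp1
  have q12 : IsSquare ((c : ℤ) : ZMod p) ∧ ((c : ℤ) : ZMod p) ≠ 0 := by
    rcases hc with h | h
    · rw [h]
      push_cast
      exact ⟨IsSquare.one, one_ne_zero⟩
    · rw [h]
      refine ⟨hp1, ?_⟩
      push_cast
      exact zm2 hp2
  obtain ⟨q1, q2⟩ := q12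
  constructor
  · intro hpJ
    have h4 := h2 fun h => hpJ ((hmem p hpD).2 h)
    rw [hdd, Int.cast_mul] at h4
    exact sq_cancel q1 q2 h4
  · intro hpJ
    have h4 := h3 _ (c * (e * ∏ q ∈ J.erase p, (q : ℤ))) (n_erase hn hpD) (by
      rw [hdd, dC_erase hpJ]
      ring)
    refine sq_cancel q1 q2 ?_
    rw [← Int.cast_mul]
    have e6 : c * ((∏ q ∈ n.primeFactors.erase p, (q : ℤ)) * (e * ∏ q ∈ J.erase p, (q : ℤ))) =
        (∏ q ∈ n.primeFactors.erase p, (q : ℤ)) * (c * (e * ∏ q ∈ J.erase p, (q : ℤ))) := by ring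
    rw [e6]
    exact h4

/-- the class of a set -/
theorem memE (hL : S_LOCE) {e : ℤ} (he : e = 1 ∨ e = -1) {J : Finset ℕ}
    (hJ : CG (-2) e n.primeFactors J) :
    coc (a := -14 * (n : ℤ)) (nnE hn) (e * dC J) ∈ shaCoc (WZ (-14 * n) (81 * (n : ℤ) ^ 2)) := by
  have h24 := hn.2
  have hsf := edC_sqf hn he hJ.1
  refine ⟨(Pool.Agent.Z488.t_COC _ _ (nnE hn) _).1, fun p hp => ?_, ?_⟩
  · exact Pool.Agent.Y210.Z702.t_LOT _ _ (nnE hn) _ (habE hn) hsf.ne_zero ℚ_[p]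
      (sufE hn hL he hJ p)
  · exact Pool.Agent.Y210.Z702.t_LOT _ _ (nnE hn) _ (habE hn) hsf.ne_zero ℝ
      ((hL.2.2.2 n _ hsf).2 (n_pos hn))

/-- the trivial classes -/
lemma cobm2 : IsCob (WZ (-14 * n) (81 * (n : ℤ) ^ 2)) (coc (nnE hn) (-2)) :=
  coc_cob (nnE hn) (m := 16 * (n : ℤ)) (by norm_num)
    (mul_ne_zero (by norm_num) (n_ne hn)) (by ring)

lemma cobnE : IsCob (WZ (-14 * n) (81 * (n : ℤ) ^ 2)) (coc (nnE hn) (n : ℤ)) := by
  refine loc_cob (nnE hn) (habE hn) (n_ne hn) ⟨(4 * n : ℚ), 0, 2, ?_, ?_, ?_⟩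
  · refine mul_ne_zero (by norm_num) ?_
    exact_mod_cast n_ne hn
  · push_cast
    ring
  · push_cast
    ring

lemma cobcE {c : ℤ} (hc : c = 1 ∨ c = -2) :
    IsCob (WZ (-14 * n) (81 * (n : ℤ) ^ 2)) (coc (nnE hn) c) := by
  rcases hc with h | h
  · rw [h, Pool.Agent.N818.SL.coc_one]
    exact cob_zero _
  · rw [h]
    exact cobm2 hn

/-- when two sets give the same class -/
theorem injE (hTR : S_TR)
    (hk : ∃ k : ℕ, Odd k ∧
      Nat.card (WZ (-2 * (-14 * (n : ℤ))) ((-14 * (n : ℤ)) ^ 2 -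
        4 * (81 * (n : ℤ) ^ 2))).toAffine.Point = 4 * k)
    {e e' : ℤ} (he : e = 1 ∨ e = -1) (he' : e' = 1 ∨ e' = -1)
    {J J' : Finset ℕ} (hJ : J ⊆ n.primeFactors) (hJ' : J' ⊆ n.primeFactors) :
    IsCob (WZ (-14 * n) (81 * (n : ℤ) ^ 2))
      (coc (nnE hn) (e * dC J) - coc (nnE hn) (e' * dC J')) ↔
      e' = e ∧ (J' = J ∨ J' = n.primeFactors \ J) := by
  have hsJ := edC_sqf hn he hJ
  have hsJ' := edC_sqf hn he' hJ'
  have hset : (J \ J') ∪ (J' \ J) ⊆ n.primeFactors := by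
    intro q hq
    rw [mem_union, mem_sdiff, mem_sdiff] at hq
    rcases hq with hq | hq
    · exact hJ hq.1
    · exact hJ' hq.1
  have hee : e * e' = 1 ∨ e * e' = -1 := by
    rcases he with h | h <;> rcases he' with h' | h' <;> rw [h, h'] <;> norm_num
  have hsc := edC_sqf hn hee hset
  have hpos := dC_pos hn hset
  have hi : dC (J ∩ J') ≠ 0 := (dC_sqf hn fun q hq => hJ (mem_inter.1 hq).1).ne_zero
  have hprod0 : dC J * dC J' = dC ((J \ J') ∪ (J' \ J)) * (dC (J ∩ J')) ^ 2 := by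
    rw [dC_cast, dC_cast, dC_cast, dC_cast]
    exact_mod_cast Pool.Agent.N818.SL.prod_symm J J'
  have hprod : (e * dC J) * (e' * dC J') =
      (e * e' * dC ((J \ J') ∪ (J' \ J))) * (dC (J ∩ J')) ^ 2 := by
    linear_combination e * e' * hprod0
  rw [cob_sub (nnE hn) hsJ.ne_zero hsJ'.ne_zero hi hprod]
  have h2c : ¬ (2 : ℤ) ∣ e * e' * dC ((J \ J') ∪ (J' \ J)) := by
    have h1 : ¬ ((2 : ℕ) : ℤ) ∣ e * e' * dC ((J \ J') ∪ (J' \ J)) := fun h =>
      two_not hn (hset ((dvd_edC hn hee hset Nat.prime_two).1 h))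
    exact_mod_cast h1
  have h2n : ¬ (2 : ℤ) ∣ (n : ℤ) := by
    have h24 := hn.2
    omega
  -- the possible products
  have hcase : IsCob (WZ (-14 * n) (81 * (n : ℤ) ^ 2))
        (coc (nnE hn) (e * e' * dC ((J \ J') ∪ (J' \ J)))) ↔
      e * e' * dC ((J \ J') ∪ (J' \ J)) = 1 ∨ e * e' * dC ((J \ J') ∪ (J' \ J)) = (n : ℤ) := by
    constructor
    · intro h
      have h1 := cob_tor' hTR (r := 9 * (n : ℤ)) (by ring) (mul_ne_zero (by norm_num) (n_ne hn))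
        (nnE hn) (habE hn) hsc.ne_zero hk h
      set c := e * e' * dC ((J \ J') ∪ (J' \ J)) with hc
      have hn0 : (n : ℚ) ≠ 0 := by exact_mod_cast n_ne hn
      have hsq2 : Squarefree (-2 : ℤ) := by
        rw [← Int.squarefree_natAbs]
        exact Nat.prime_two.prime.squarefree
      rcases h1 with h1 | h1 | h1 | h1
      · exact Or.inl (one_of_sqZ hsc h1)
      · exfalso
        have h2 : IsSquare ((c : ℚ) * ((-2 : ℤ) : ℚ)) := by
          refine sq_cancel (c := (8 * (n : ℚ)) ^ 2) (IsSquare.sq _)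
            (pow_ne_zero 2 (mul_ne_zero (by norm_num) hn0)) ?_
          have e : (8 * (n : ℚ)) ^ 2 * ((c : ℚ) * ((-2 : ℤ) : ℚ)) =
              (c : ℚ) * (((-14 * (n : ℤ) : ℤ) : ℚ) ^ 2 - 4 * ((9 * (n : ℤ) : ℤ) : ℚ) ^ 2) := by
            push_cast
            ring
          rw [e]
          exact h1
        have h4 := eq_of_sqZ hsc hsq2 h2
        exact h2c ⟨-1, by rw [h4]; norm_num⟩
      · right
        have h2 : IsSquare ((c : ℚ) * (((n : ℤ)) : ℚ)) := by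
          refine sq_cancel (c := (2 : ℚ) ^ 2) (IsSquare.sq _) (by norm_num) ?_
          have e : (2 : ℚ) ^ 2 * ((c : ℚ) * (((n : ℤ)) : ℚ)) =
              (c : ℚ) * (((-14 * (n : ℤ) : ℤ) : ℚ) + 2 * ((9 * (n : ℤ) : ℤ) : ℚ)) := by
            push_cast
            ring
          rw [e]
          exact h1
        exact eq_of_sqZ hsc (n_sqf hn) h2
      · exfalso
        have hs : Squarefree (-2 * (n : ℤ)) := by
          rw [squarefree_mul_iff]
          refine ⟨?_, hsq2, n_sqf hn⟩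
          have : IsCoprime (-2 : ℤ) n := by
            rw [IsCoprime.neg_left_iff, Int.isCoprime_iff_gcd_eq_one]
            have h5 : Nat.Coprime 2 n :=
              (Nat.Prime.coprime_iff_not_dvd Nat.prime_two).2 (by
                have h24 := hn.2
                omega)
            exact_mod_cast h5
          exact this.isRelPrime
        have h2 : IsSquare ((c : ℚ) * ((-2 * (n : ℤ) : ℤ) : ℚ)) := by
          refine sq_cancel (c := (4 : ℚ) ^ 2) (IsSquare.sq _) (by norm_num) ?_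
          have e : (4 : ℚ) ^ 2 * ((c : ℚ) * ((-2 * (n : ℤ) : ℤ) : ℚ)) =
              (c : ℚ) * (((-14 * (n : ℤ) : ℤ) : ℚ) - 2 * ((9 * (n : ℤ) : ℤ) : ℚ)) := by
            push_cast
            ring
          rw [e]
          exact h1
        have h4 := eq_of_sqZ hsc hs h2
        exact h2c ⟨-n, by rw [h4]; ring⟩
    · rintro (h | h)
      · rw [h, Pool.Agent.N818.SL.coc_one]
        exact cob_zero _
      · rw [h]
        exact cobnE hn
  rw [hcase]
  have hmem : ∀ p : ℕ, p.Prime → ((p : ℤ) ∣ dC ((J \ J') ∪ (J' \ J)) ↔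
      p ∈ (J \ J') ∪ (J' \ J)) := fun p hp => dvd_dC hn hset hp
  have hpm : ∀ z : ℤ, 0 < z → e * e' * dC ((J \ J') ∪ (J' \ J)) = z →
      e * e' = 1 ∧ dC ((J \ J') ∪ (J' \ J)) = z := by
    intro z hz h
    rcases hee with h1 | h1
    · rw [h1, one_mul] at h
      exact ⟨h1, h⟩
    · rw [h1] at h
      omega
  have hee' : e * e' = 1 → e' = e := by
    intro h
    rcases he with h1 | h1 <;> rcases he' with h2 | h2 <;> rw [h1, h2] at h ⊢ <;> omega
  constructor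
  · rintro (h | h)
    · obtain ⟨h1, h2⟩ := hpm 1 one_pos h
      refine ⟨hee' h1, Or.inl ?_⟩
      have hem : (J \ J') ∪ (J' \ J) = ∅ := by
        rw [Finset.eq_empty_iff_forall_notMem]
        intro q hq
        have hqp := (pf_ne hn (hset hq)).1
        have h5 := (hmem q hqp).2 hq
        rw [h2] at h5
        have h6 : (q : ℤ) ∣ ((1 : ℕ) : ℤ) := by exact_mod_cast h5
        rw [Int.natCast_dvd_natCast] at h6
        exact hqp.one_lt.ne' (Nat.dvd_one.1 h6)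
      rw [Finset.union_eq_empty, Finset.sdiff_eq_empty_iff_subset,
        Finset.sdiff_eq_empty_iff_subset] at hem
      exact Finset.Subset.antisymm hem.2 hem.1
    · obtain ⟨h1, h2⟩ := hpm n (n_pos hn) h
      refine ⟨hee' h1, Or.inr ?_⟩
      have hall : ∀ q ∈ n.primeFactors, q ∈ (J \ J') ∪ (J' \ J) := by
        intro q hq
        obtain ⟨h5, h6, -⟩ := pf_ne hn hq
        rw [← hmem q h5, h2]
        exact_mod_cast h6
      ext q
      rw [mem_sdiff]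
      constructor
      · intro hq
        refine ⟨hJ' hq, fun hq' => ?_⟩
        have h5 := hall q (hJ' hq)
        rw [mem_union, mem_sdiff, mem_sdiff] at h5
        tauto
      · rintro ⟨hq, hq'⟩
        have h5 := hall q hq
        rw [mem_union, mem_sdiff, mem_sdiff] at h5
        tauto
  · rintro ⟨h0, h | h⟩
    · left
      rw [h, h0, sq_e he]
      simp [dC]
    · right
      rw [h0, sq_e he, one_mul, ← dC_all hn]
      unfold dC
      refine prod_congr ?_ fun _ _ => rfl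
      rw [h]
      ext q
      simp only [mem_union, mem_sdiff]
      constructor
      · rintro (h5 | h5)
        · exact hJ h5.1
        · exact h5.1.1
      · intro h5
        by_cases h6 : q ∈ J
        · exact Or.inl ⟨h6, fun h7 => h7.2 h6⟩
        · exact Or.inr ⟨⟨h5, h6⟩, h6⟩

/-- every class killed by a power of two is the class of a set -/
theorem surjE (hL : S_LOCE)
    (hSha : ∀ x : Sha (WZ (-2 * (-14 * (n : ℤ))) ((-14 * (n : ℤ)) ^ 2 - 4 * (81 * (n : ℤ) ^ 2))),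
      x + x = 0 → x = 0)
    (x : Sha (WZ (-14 * n) (81 * (n : ℤ) ^ 2))) (k : ℕ) (hx : (2 ^ k) • x = 0) :
    ∃ (e : ℤ) (he : e = 1 ∨ e = -1) (J : Finset ℕ) (hJ : CG (-2) e n.primeFactors J),
      cls (WZ (-14 * n) (81 * (n : ℤ) ^ 2)) ⟨coc (nnE hn) (e * dC J), memE hn hL he hJ⟩ = x := by
  obtain ⟨d, hd, hc, hx'⟩ := prim (nnE hn) (habE hn) hSha x k hx
  have hd0 : d ≠ 0 := hd.ne_zero
  have l1 : ∀ (p : ℕ) [Fact p.Prime], LK ℚ_[p] (-14 * n) (81 * (n : ℤ) ^ 2) d := fun p _ =>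
    lcb _ _ (nnE hn) d hd0 ℚ_[p] (hc.2.1 p)
  obtain ⟨e, he, J, hJ, m, hm, c, hcc, hdJ⟩ := necE hn hL hd l1
  refine ⟨e, he, J, hJ, ?_⟩
  rw [← hx']
  symm
  apply cls_eq
  exact (cob_sub (nnE hn) hd0 (edC_sqf hn he hJ.1).ne_zero hm hdJ).2 (cobcE hn hcc)

end

/-- the sign -/
def sgn (i : Bool) : ℤ := if i then 1 else -1

lemma sgn_pm (i : Bool) : sgn i = 1 ∨ sgn i = -1 := by
  cases i <;> simp [sgn]

lemma sgn_inj {i j : Bool} (h : sgn i = sgn j) : i = j := by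
  cases i <;> cases j <;> simp [sgn] at h ⊢

/-- **the 2-primary part of `Ш(WE n)`** -/
theorem t_SE : S_SE := by
  intro hL hJE hTR n hn hQ hk hSha
  obtain ⟨hcard, hcompl⟩ := hJE n hn hQ
  have htwo : ∀ (e : ℤ) (he : e = 1 ∨ e = -1) (J : Finset ℕ) (hJ : CG (-2) e n.primeFactors J),
      cls (WZ (-14 * n) (81 * (n : ℤ) ^ 2)) ⟨coc (nnE hn) (e * dC J), memE hn hL he hJ⟩ +
      cls (WZ (-14 * n) (81 * (n : ℤ) ^ 2)) ⟨coc (nnE hn) (e * dC J), memE hn hL he hJ⟩ = 0 := by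
    intro e he J hJ
    rw [← cls_add, cls_zero_iff]
    change IsCob (WZ (-14 * n) (81 * (n : ℤ) ^ 2)) (coc (nnE hn) (e * dC J) +
      coc (nnE hn) (e * dC J))
    rw [coc_two]
    exact (cob _).zero_mem
  refine ⟨?_, ?_⟩
  swap
  · rintro x ⟨k, hx⟩
    obtain ⟨e, he, J, hJ, rfl⟩ := surjE hn hL hSha x k hx
    exact htwo e he J hJ
  obtain ⟨p₀, hp₀⟩ : n.primeFactors.Nonempty := by
    rw [Nat.nonempty_primeFactors]
    have := hn.2
    omega
  let T : Bool → Finset (Finset ℕ) := fun i =>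
    n.primeFactors.powerset.filter fun J => CG (-2) (sgn i) n.primeFactors J
  let T₀ : Bool → Finset (Finset ℕ) := fun i => (T i).filter fun J => p₀ ∉ J
  have hT : ∀ (i : Bool) (J : T₀ i), CG (-2) (sgn i) n.primeFactors (J : Finset ℕ) := fun i J =>
    (mem_filter.1 (mem_filter.1 J.2).1).2
  have hT' : ∀ (i : Bool) (J : T₀ i), p₀ ∉ (J : Finset ℕ) := fun i J => (mem_filter.1 J.2).2
  have hclseq : ∀ (e e' : ℤ) (he : e = 1 ∨ e = -1) (he' : e' = 1 ∨ e' = -1) (J J' : Finset ℕ)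
      (hJ : CG (-2) e n.primeFactors J) (hJ' : CG (-2) e' n.primeFactors J'),
      cls (WZ (-14 * n) (81 * (n : ℤ) ^ 2)) ⟨coc (nnE hn) (e * dC J), memE hn hL he hJ⟩ =
      cls (WZ (-14 * n) (81 * (n : ℤ) ^ 2)) ⟨coc (nnE hn) (e' * dC J'), memE hn hL he' hJ'⟩ ↔
      (e' = e ∧ (J' = J ∨ J' = n.primeFactors \ J)) := by
    intro e e' he he' J J' hJ hJ'
    rw [← injE hn hTR hk he he' hJ.1 hJ'.1]
    exact ⟨fun h => cob_of_eq h, fun h => cls_eq h⟩
  let Φ : (Σ i : Bool, T₀ i) →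
      {x : Sha (WZ (-14 * n) (81 * (n : ℤ) ^ 2)) // ∃ k : ℕ, 2 ^ k • x = 0} := fun J =>
    ⟨cls (WZ (-14 * n) (81 * (n : ℤ) ^ 2)) ⟨coc (nnE hn) (sgn J.1 * dC (J.2 : Finset ℕ)),
      memE hn hL (sgn_pm J.1) (hT J.1 J.2)⟩,
      ⟨1, by rw [pow_one, two_nsmul]; exact htwo _ (sgn_pm J.1) _ (hT J.1 J.2)⟩⟩
  have hΦ : Function.Bijective Φ := by
    constructor
    · rintro ⟨i, J⟩ ⟨i', J'⟩ h
      obtain ⟨h0, h1⟩ := (hclseq _ _ (sgn_pm i) (sgn_pm i') _ _ (hT i J) (hT i' J')).1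
        (congrArg Subtype.val h)
      have h2 := sgn_inj h0
      subst h2
      rcases h1 with h1 | h1
      · have h3 : J = J' := Subtype.ext h1.symm
        rw [h3]
      · exfalso
        apply hT' i' J'
        rw [h1]
        exact mem_sdiff.2 ⟨hp₀, hT' i' J⟩
    · rintro ⟨x, k, hx⟩
      obtain ⟨e, he, J, hJ, hJx⟩ := surjE hn hL hSha x k hx
      obtain ⟨i, hi⟩ : ∃ i, sgn i = e := by
        rcases he with h | h
        · exact ⟨true, by rw [h]; rfl⟩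
        · exact ⟨false, by rw [h]; rfl⟩
      subst hi
      by_cases h : p₀ ∈ J
      · have hJc := hcompl J (sgn i) hJ
        refine ⟨⟨i, ⟨n.primeFactors \ J, mem_filter.2 ⟨mem_filter.2 ⟨mem_powerset.2 hJc.1, hJc⟩,
          fun h' => (mem_sdiff.1 h').2 h⟩⟩⟩, Subtype.ext ?_⟩
        exact ((hclseq _ _ he (sgn_pm i) _ _ hJ hJc).2 ⟨rfl, Or.inr rfl⟩).symm.trans hJx
      · exact ⟨⟨i, ⟨J, mem_filter.2 ⟨mem_filter.2 ⟨mem_powerset.2 hJ.1, hJ⟩, h⟩⟩⟩,
          Subtype.ext hJx⟩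
  have h1 : ∀ i, 2 * (T₀ i).card = (T i).card := by
    intro i
    have h1 : (T₀ i).card + ((T i).filter fun J => ¬ p₀ ∉ J).card = (T i).card :=
      card_filter_add_card_filter_not _
    have h2 : (T₀ i).card = ((T i).filter fun J => ¬ p₀ ∉ J).card := by
      refine card_bij (fun J _ => n.primeFactors \ J) ?_ ?_ ?_
      · intro J hJ
        obtain ⟨h3, h4⟩ := mem_filter.1 hJ
        have h5 := hcompl J _ (mem_filter.1 h3).2
        exact mem_filter.2 ⟨mem_filter.2 ⟨mem_powerset.2 h5.1, h5⟩,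
          fun h6 => h6 (mem_sdiff.2 ⟨hp₀, h4⟩)⟩
      · intro J hJ J' hJ' h
        have h3 := (mem_filter.1 (mem_filter.1 hJ).1).2.1
        have h4 := (mem_filter.1 (mem_filter.1 hJ').1).2.1
        have h5 : n.primeFactors \ (n.primeFactors \ J) =
            n.primeFactors \ (n.primeFactors \ J') := by
          rw [h]
        rwa [Finset.sdiff_sdiff_eq_self h3, Finset.sdiff_sdiff_eq_self h4] at h5
      · intro J hJ
        obtain ⟨h3, h4⟩ := mem_filter.1 hJ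
        have h5 := (mem_filter.1 h3).2
        have h6 := hcompl J _ h5
        refine ⟨n.primeFactors \ J, mem_filter.2 ⟨mem_filter.2 ⟨mem_powerset.2 h6.1, h6⟩,
          fun h7 => ?_⟩, Finset.sdiff_sdiff_eq_self h5.1⟩
        exact h4 (mem_sdiff.1 h7).2
    omega
  have h0 : (T true).card + (T false).card =
      2 * 2 ^ (n.primeFactors.filter fun p => ¬ IsSquare (-2 : ZMod p)).card := hcard
  rw [← Nat.card_congr (Equiv.ofBijective Φ hΦ), Nat.card_eq_fintype_card, Fintype.card_sigma,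
    Fintype.sum_bool, Fintype.card_coe, Fintype.card_coe]
  have h3 := h1 true
  have h4 := h1 false
  omega

end Pool.Agent.N721.SN
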